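import Pool.Agent.V8H10.EX.Final

set_option autoImplicit false

/-!
# Small split primes in the quadratic fields `ℚ(√(u g ^ n + v))`

Let `g ≥ 2`, and let `u`, `v` be nonzero integers. The family `u g ^ n + v`, `n < X`, has only `X` members, of
size `g ^ X`. There is an absolute constant `c > 0` such that for all large `X`, uniformly for `|u|, |v| ≤ X`:

(1) for every `y` with `(log X) ^ 2 ≤ y ≤ X`, for all but `3 X exp (- log X / (4 log y))` of the `n < X` at least
`c y / log y` of the primes `p ≤ y` split in the field `ℚ(√(u g ^ n + v))`;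

(2) for all but `X exp (- c log X / log log X)` of the `n < X` the discriminant `d` of `ℚ(√(u g ^ n + v))` satisfies
`N(d) ≥ c (log X) ^ 2 / log log X`, where `N(d)` is the number of the question (the number of the split primes
`p < (log |d|) ^ 2 (log log |d|) ^ 2`). So `N(d)` tends to infinity along almost all members of the family
(for instance of `- 2 ^ n - 1`), with an explicit rate; no lower bound for `|d|` is assumed.

Proof. By Goldfeld's theorem (`Pool.Agent.N120.TC.t_P`, starting library) a positive proportion of the primes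
`p ≤ y` have the property that the order `T` of `g` modulo `p` has a prime factor `ℓ > y ^ (1/2 + κ)`. The
quadratic character modulo `p` has sum at most `√p` over the numbers `a h + v`, `h` in the subgroup of order `ℓ`
(elementary second moment over the translates). So the conditions at `k` such primes with different `ℓ` are
nearly independent for `n` in long intervals (shift `n` by multiples of `T / ℓ` that are divisible by the other
orders). The mean value of the `k`-th power of the number of the primes which do not split, `y ^ k ≤ X`, gives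
(1), also for an arbitrary sign pattern instead of the condition of splitting. Applied to the patterns of the
integers `d`, `|d| ≤ D`, this shows that the discriminant is larger than `D = exp (c log X / log log X)` with few
exceptions, and (2) follows.
-/

namespace Pool.Agent.Results.MP_aaa0df_nt.ExponentialFamilies

/-- the discriminants of the quadratic fields, and `1` (for the negative ones see the frozen statement) -/
def Fund (d : ℤ) : Prop := (d % 4 = 1 ∧ Squarefree d) ∨
  (∃ m : ℤ, d = 4 * m ∧ (m % 4 = 2 ∨ m % 4 = 3) ∧ Squarefree m)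

/-- `p` splits in the field of discriminant `d` (as in the frozen statement) -/
def Splits (d : ℤ) (p : ℕ) : Prop := ¬ (p : ℤ) ∣ d ∧ ∃ x : ℤ, (4 * (p : ℤ)) ∣ x ^ 2 - d

/-- the number of the primes `p ≤ y` which split -/
noncomputable def S (d : ℤ) (y : ℕ) : ℕ := Set.ncard {p : ℕ | p.Prime ∧ p ≤ y ∧ Splits d p}

/-- the threshold `(log |d|) ^ 2 (log log |d|) ^ 2` of the question -/
noncomputable def threshold (d : ℤ) : ℝ := Real.log |(d : ℝ)| ^ 2 * Real.log (Real.log |(d : ℝ)|) ^ 2

/-- the number `N(d)` of the question -/
noncomputable def N (d : ℤ) : ℕ := Set.ncard {p : ℕ | p.Prime ∧ (p : ℝ) < threshold d ∧ Splits d p}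

/-- **Small split primes in exponential families.** (`d` is the discriminant of `ℚ(√m)`, `m ≠ 0`, if and only if
it satisfies `Fund` and `m d` is a square; `d = 1` if `m` is a square.) -/
theorem result : ∃ c : ℝ, 0 < c ∧ ∀ g : ℕ, 2 ≤ g → ∃ X₀ : ℕ, ∀ X : ℕ, X₀ ≤ X → ∀ u v : ℤ,
    u ≠ 0 → v ≠ 0 → |u| ≤ X → |v| ≤ X →
    (∀ y : ℕ, Real.log X ^ 2 ≤ y → y ≤ X →
      ({n : ℕ | n < X ∧ ¬ ∀ d : ℤ, Fund d → IsSquare ((u * (g : ℤ) ^ n + v) * d) →
        c * (y / Real.log y) ≤ S d y}.ncard : ℝ) ≤
      3 * X * Real.exp (-(Real.log X / (4 * Real.log y)))) ∧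
    ({n : ℕ | n < X ∧ ¬ (u * (g : ℤ) ^ n + v ≠ 0 ∧ ∀ d : ℤ, Fund d →
        IsSquare ((u * (g : ℤ) ^ n + v) * d) →
        c * (Real.log X ^ 2 / Real.log (Real.log X)) ≤ N d)}.ncard : ℝ) ≤
      X * Real.exp (-(c * (Real.log X / Real.log (Real.log X)))) :=
  Pool.Agent.V8H10.EX.main

end Pool.Agent.Results.MP_aaa0df_nt.ExponentialFamilies
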