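import Pool.Agent.V8H64.GL.Fin

set_option autoImplicit false

/-!
# The Gaussian law for the number of small split primes

`N(d)` is the number of the primes below the threshold `(log |d|)² (log log |d|)²` of the question
which split in the imaginary quadratic field of discriminant `d`, and `Y(d)` is the number of all
primes below the threshold.

(1) For `r` orthogonal vectors of real weights, bounded by `1`, on the primes `p ≤ y` (for instance
the indicator functions of `r` disjoint sets of primes) the weighted sums of the signs (`1` if `p`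
splits, `-1` otherwise), divided by the norms of the weights, are asymptotically independent and
normal, on average over the fundamental discriminants `d < 0` with `a < |d| ≤ a + H`, for all
intervals with `H ≥ K √(a + H)` and `y ^ K ≤ H`, uniformly in the weights, in `y` and in the interval.

(2) For all intervals with `H ≥ K √(a + H)` the normalized number `(2 N(d) - Y(d)) / √Y(d)` has the
distribution function of the standard normal law, up to `ε`, uniformly.

(3) In particular it is asymptotically normal for the discriminants `d < 0` with `|d| ≤ X`, `X → ∞`.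

(4) For the integers `n` of the very short intervals `(a, a + H]`, where only
`H ≥ (log (a + H)) ^ K` is needed, the number of the primes `p` below the threshold
`(log n)² (log log n)²` which do not divide `n` and modulo which `-n` is a square (for odd `p` this
means that `p` splits in `ℚ(√(-n))`, for `p` not dividing `n`) has the same law.
-/

namespace Pool.Agent.Results.MP_aaa0df_nt.GaussianLaw

open Finset Filter Topology

/-- the fundamental discriminants `d < 0`, that is, the discriminants of the imaginary quadratic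
fields (as in the frozen statement) -/
def NegFund (d : ℤ) : Prop := d < 0 ∧ ((d % 4 = 1 ∧ Squarefree d) ∨
  ∃ m : ℤ, d = 4 * m ∧ (m % 4 = 2 ∨ m % 4 = 3) ∧ Squarefree m)

/-- the prime `p` splits in the field of discriminant `d` (as in the frozen statement) -/
def Splits (d : ℤ) (p : ℕ) : Prop := ¬ (p : ℤ) ∣ d ∧ ∃ x : ℤ, (4 * (p : ℤ)) ∣ x ^ 2 - d

open Classical in
/-- `1` if `p` splits in the field of discriminant `d`, and `-1` otherwise -/
noncomputable def sgn (d : ℤ) (p : ℕ) : ℝ := if Splits d p then 1 else -1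

/-- the primes `p ≤ y` -/
def primesUpTo (y : ℕ) : Finset ℕ := (Finset.range (y + 1)).filter Nat.Prime

/-- the threshold `(log |d|)² (log log |d|)²` of the question -/
noncomputable def thr (d : ℤ) : ℝ :=
  Real.log |(d : ℝ)| ^ 2 * Real.log (Real.log |(d : ℝ)|) ^ 2

/-- `N(d)` of the question: the number of the split primes below the threshold -/
noncomputable def N (d : ℤ) : ℕ := Set.ncard {p : ℕ | p.Prime ∧ (p : ℝ) < thr d ∧ Splits d p}

/-- the number of the primes below the threshold -/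
noncomputable def Y (d : ℤ) : ℕ := Set.ncard {p : ℕ | p.Prime ∧ (p : ℝ) < thr d}

/-- the discriminants `d` of the imaginary quadratic fields with `a < |d| ≤ b` -/
def D (a b : ℕ) : Set ℤ := {d | NegFund d ∧ (a : ℤ) < |d| ∧ |d| ≤ b}

/-- the distribution function of the standard normal law -/
noncomputable def Φ (u : ℝ) : ℝ := ∫ t in Set.Iic u, (√(2 * Real.pi))⁻¹ * Real.exp (-t ^ 2 / 2)

/-- the number of the primes `p` below the threshold `(log n)² (log log n)²` which do not divide `n`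
and modulo which `-n` is a square (for odd `p ∤ n` this means that `p` splits in `ℚ(√(-n))`) -/
noncomputable def N' (n : ℕ) : ℕ := Set.ncard {p : ℕ | p.Prime ∧
  (p : ℝ) < Real.log n ^ 2 * Real.log (Real.log n) ^ 2 ∧ ¬ p ∣ n ∧ ∃ x : ℤ, (p : ℤ) ∣ x ^ 2 + n}

/-- the number of the primes below the threshold `(log n)² (log log n)²` -/
noncomputable def Y' (n : ℕ) : ℕ := Set.ncard {p : ℕ | p.Prime ∧
  (p : ℝ) < Real.log n ^ 2 * Real.log (Real.log n) ^ 2}

lemma Φ_eq (u : ℝ) : Φ u = Pool.Agent.N430.CLT.Phi u := (Pool.Agent.N430.CLT.Phi_eq u).symm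

lemma negFund_iff (n : ℕ) (hn : 0 < n) : NegFund (-(n : ℤ)) ↔ Pool.Agent.V8H64.GL.Fd n := by
  unfold NegFund Pool.Agent.V8H64.GL.Fd
  have hsq : ∀ k : ℕ, Squarefree (-(k : ℤ)) ↔ Squarefree k := by
    intro k
    rw [← Int.squarefree_natAbs, Int.natAbs_neg, Int.natAbs_natCast]
  constructor
  · rintro ⟨_, ⟨h1, h2⟩ | ⟨m, h1, h2, h3⟩⟩
    · exact Or.inl ⟨by omega, (hsq n).1 h2⟩
    · refine Or.inr ⟨(-m).toNat, by omega, by omega, ?_⟩
      rw [← hsq, Int.toNat_of_nonneg (by omega), neg_neg]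
      exact h3
  · rintro (⟨h1, h2⟩ | ⟨k, rfl, h1, h2⟩)
    · exact ⟨by omega, Or.inl ⟨by omega, (hsq n).2 h2⟩⟩
    · exact ⟨by omega, Or.inr ⟨-(k : ℤ), by push_cast; ring, by omega, (hsq k).2 h2⟩⟩

lemma ncard_D (a H : ℕ) (P : ℤ → Prop) (P' : ℕ → Prop)
    (h : ∀ n : ℕ, Pool.Agent.V8H64.GL.Fd n → (P (-(n : ℤ)) ↔ P' n)) :
    (Set.ncard {d ∈ D a (a + H) | P d} : ℝ) =
      Pool.Agent.V8H64.GL.cnt (fun n => Pool.Agent.V8H64.GL.Fd n ∧ P' n) a H := by
  classical
  rw [← Pool.Agent.V8H64.GL.cnt_eq]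
  have e : {d ∈ D a (a + H) | P d} = (fun n : ℕ => -(n : ℤ)) ''
      (({n ∈ Finset.Ioc a (a + H) | Pool.Agent.V8H64.GL.Fd n ∧ P' n} : Finset ℕ) : Set ℕ) := by
    ext d
    rw [Set.mem_image]
    constructor
    · rintro ⟨⟨h1, h2, h3⟩, h4⟩
      have h5 : d < 0 := h1.1
      rw [abs_of_neg h5] at h2 h3
      have h6 : -(((-d).toNat : ℕ) : ℤ) = d := by omega
      have h7 : Pool.Agent.V8H64.GL.Fd (-d).toNat := by
        rw [← negFund_iff _ (by omega), h6]
        exact h1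
      refine ⟨(-d).toNat, ?_, h6⟩
      rw [Finset.mem_coe, Finset.mem_filter, Finset.mem_Ioc]
      refine ⟨by omega, h7, ?_⟩
      rw [← h _ h7, h6]
      exact h4
    · rintro ⟨n, hn, rfl⟩
      rw [Finset.mem_coe, Finset.mem_filter, Finset.mem_Ioc] at hn
      obtain ⟨h1, h2, h3⟩ := hn
      refine ⟨⟨(negFund_iff n (by omega)).2 h2, ?_, ?_⟩, (h n h2).2 h3⟩
      · rw [abs_neg, Nat.abs_cast]
        omega
      · rw [abs_neg, Nat.abs_cast]
        omega
  rw [e, Set.ncard_image_of_injective _ (fun x y hxy => by simpa using hxy),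
    Set.ncard_coe_finset]

lemma ncard_D' (a H : ℕ) : ((D a (a + H)).ncard : ℝ) =
    Pool.Agent.V8H64.GL.cnt Pool.Agent.V8H64.GL.Fd a H := by
  have h := ncard_D a H (fun _ => True) (fun _ => True) (fun _ _ => Iff.rfl)
  have e : {d ∈ D a (a + H) | True} = D a (a + H) := by
    ext d
    simp
  rw [e] at h
  rw [h]
  simp

lemma coe_PT (n : ℕ) : {p : ℕ | p.Prime ∧
    (p : ℝ) < Real.log n ^ 2 * Real.log (Real.log n) ^ 2} = (Pool.Agent.V8H64.GL.PT n : Set ℕ) := by
  ext p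
  unfold Pool.Agent.V8H64.GL.PT Pool.Agent.V8H64.GL.thr
  rw [Finset.mem_coe, Finset.mem_filter, Finset.mem_range, Nat.lt_ceil]
  exact and_comm

lemma two_sub (s : Finset ℕ) (A : ℕ → Prop) [DecidablePred A] :
    2 * ((#{p ∈ s | A p} : ℕ) : ℝ) - #s = ∑ p ∈ s, if A p then (1 : ℝ) else -1 := by
  have h : ∀ p ∈ s, (if A p then (1 : ℝ) else -1) = 2 * (if A p then 1 else 0) - 1 := by
    intro p _
    split_ifs <;> norm_num
  rw [Finset.sum_congr rfl h, Finset.sum_sub_distrib, ← Finset.mul_sum, Finset.sum_boole,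
    Finset.sum_const, nsmul_eq_mul, mul_one]

lemma Y_neg (n : ℕ) : Y (-(n : ℤ)) = #(Pool.Agent.V8H64.GL.PT n) := by
  unfold Y thr
  have h : |((-(n : ℤ) : ℤ) : ℝ)| = n := by
    push_cast
    rw [abs_neg, Nat.abs_cast]
  rw [h, coe_PT, Set.ncard_coe_finset]

lemma N_neg (n : ℕ) : 2 * (N (-(n : ℤ)) : ℝ) - Y (-(n : ℤ)) =
    ∑ p ∈ Pool.Agent.V8H64.GL.PT n, Pool.Agent.V8H64.GL.sg p n := by
  classical
  rw [Y_neg]
  unfold Pool.Agent.V8H64.GL.sg
  have e : N (-(n : ℤ)) = #{p ∈ Pool.Agent.V8H64.GL.PT n | Pool.Agent.V8H64.GL.Spl (-(n : ℤ)) p} := by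
    rw [← Set.ncard_coe_finset]
    unfold N thr
    have h : |((-(n : ℤ) : ℤ) : ℝ)| = n := by
      push_cast
      rw [abs_neg, Nat.abs_cast]
    rw [h]
    congr 1
    ext p
    rw [Finset.mem_coe, Finset.mem_filter, ← Finset.mem_coe, ← coe_PT]
    constructor
    · rintro ⟨h1, h2, h3⟩
      exact ⟨⟨h1, h2⟩, h3⟩
    · rintro ⟨⟨h1, h2⟩, h3⟩
      exact ⟨h1, h2, h3⟩
  rw [e, two_sub]

lemma N'_eq (n : ℕ) : 2 * (N' n : ℝ) - Y' n =
    ∑ p ∈ Pool.Agent.V8H64.GL.PT n, Pool.Agent.V8H64.GL.sq1 p n := by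
  classical
  unfold Pool.Agent.V8H64.GL.sq1
  have e0 : Y' n = #(Pool.Agent.V8H64.GL.PT n) := by
    unfold Y'
    rw [coe_PT, Set.ncard_coe_finset]
  have e : N' n = #{p ∈ Pool.Agent.V8H64.GL.PT n | ¬ p ∣ n ∧ ∃ x : ℤ, (p : ℤ) ∣ x ^ 2 + n} := by
    rw [← Set.ncard_coe_finset]
    unfold N'
    congr 1
    ext p
    rw [Finset.mem_coe, Finset.mem_filter, ← Finset.mem_coe, ← coe_PT]
    constructor
    · rintro ⟨h1, h2, h3⟩
      exact ⟨⟨h1, h2⟩, h3⟩
    · rintro ⟨⟨h1, h2⟩, h3⟩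
      exact ⟨h1, h2, h3⟩
  rw [e0, e, two_sub]

lemma Y'_eq (n : ℕ) : Y' n = #(Pool.Agent.V8H64.GL.PT n) := by
  unfold Y'
  rw [coe_PT, Set.ncard_coe_finset]

theorem part2 : ∀ ε : ℝ, 0 < ε → ∃ K : ℕ, ∀ a H : ℕ, (K : ℝ) * √(a + H) ≤ H → ∀ u : ℝ,
      |({d ∈ D a (a + H) | 2 * (N d : ℝ) - Y d ≤ u * √(Y d)}.ncard : ℝ) -
        Φ u * (D a (a + H)).ncard| ≤ ε * (D a (a + H)).ncard := by
  intro ε hε
  obtain ⟨K, -, hK⟩ := Pool.Agent.V8H64.GL.thr_fd ε hε
  refine ⟨K, fun a H h u => ?_⟩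
  rw [Φ_eq, ncard_D', ncard_D a H _ (fun n => ∑ p ∈ Pool.Agent.V8H64.GL.PT n,
    Pool.Agent.V8H64.GL.sg p n ≤ u * √(#(Pool.Agent.V8H64.GL.PT n)))]
  · exact hK a H h u
  · intro n _
    rw [N_neg, Y_neg]

/-- **The Gaussian law for the number of small split primes.** -/
theorem result :
    -- (1) weighted sums, jointly, with uniformity
    (∀ (r : ℕ) (u : Fin r → ℝ) (ε : ℝ), 0 < ε → ∃ K : ℕ, ∀ (a H y : ℕ) (c : Fin r → ℕ → ℝ),
      (K : ℝ) * √(a + H) ≤ H → y ^ K ≤ H → (∀ i p, |c i p| ≤ 1) →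
      (∀ i, (K : ℝ) ≤ ∑ p ∈ primesUpTo y, c i p ^ 2) →
      (∀ i j, i ≠ j → ∑ p ∈ primesUpTo y, c i p * c j p = 0) →
      |({d ∈ D a (a + H) | ∀ i, ∑ p ∈ primesUpTo y, c i p * sgn d p ≤
          u i * √(∑ p ∈ primesUpTo y, c i p ^ 2)}.ncard : ℝ) -
        (∏ i, Φ (u i)) * (D a (a + H)).ncard| ≤ ε * (D a (a + H)).ncard) ∧
    -- (2) the function `N` of the question, in short intervals
    (∀ ε : ℝ, 0 < ε → ∃ K : ℕ, ∀ a H : ℕ, (K : ℝ) * √(a + H) ≤ H → ∀ u : ℝ,
      |({d ∈ D a (a + H) | 2 * (N d : ℝ) - Y d ≤ u * √(Y d)}.ncard : ℝ) -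
        Φ u * (D a (a + H)).ncard| ≤ ε * (D a (a + H)).ncard) ∧
    -- (3) the function `N` of the question, for all discriminants
    (∀ u : ℝ, Tendsto (fun X : ℕ =>
      ({d ∈ D 0 X | 2 * (N d : ℝ) - Y d ≤ u * √(Y d)}.ncard : ℝ) / (D 0 X).ncard) atTop (𝓝 (Φ u))) ∧
    -- (4) all integers in very short intervals
    (∀ ε : ℝ, 0 < ε → ∃ K : ℕ, ∀ a H : ℕ, 2 ≤ a → Real.log (a + H) ^ K ≤ H → ∀ u : ℝ,
      |({n | a < n ∧ n ≤ a + H ∧ 2 * (N' n : ℝ) - Y' n ≤ u * √(Y' n)}.ncard : ℝ) -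
        Φ u * H| ≤ ε * H) := by
  classical
  refine ⟨?_, part2, ?_, ?_⟩
  · intro r u ε hε
    obtain ⟨K, hK1, hK⟩ := Pool.Agent.V8H64.GL.clt_fd r u ε hε
    refine ⟨K, fun a H y c h1 h2 h3 h4 h5 => ?_⟩
    have eP : primesUpTo y = Pool.Agent.N430.CLT.PP y := rfl
    rw [eP] at h4 h5 ⊢
    rcases Nat.eq_zero_or_pos r with rfl | hr
    · have e : {d ∈ D a (a + H) | ∀ i : Fin 0, ∑ p ∈ Pool.Agent.N430.CLT.PP y, c i p * sgn d p ≤
          u i * √(∑ p ∈ Pool.Agent.N430.CLT.PP y, c i p ^ 2)} = D a (a + H) := by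
        ext d
        simp
      rw [e]
      simp
      positivity
    · have hK1' : (1 : ℝ) ≤ K := by exact_mod_cast hK1
      rcases Nat.eq_zero_or_pos y with rfl | hy
      · exfalso
        have h6 := h4 ⟨0, hr⟩
        have e : Pool.Agent.N430.CLT.PP 0 = ∅ := by decide
        rw [e, Finset.sum_empty] at h6
        linarith
      · have hH : 1 ≤ H := le_trans (Nat.one_le_pow _ _ hy) h2
        have hH1 : (1 : ℝ) ≤ H := by exact_mod_cast hH
        have ha0 : (0 : ℝ) ≤ a := Nat.cast_nonneg _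
        have r3 : K ≤ H := by
          have h6 : √(H : ℝ) ≤ √((a : ℝ) + H) := Real.sqrt_le_sqrt (by linarith)
          have h7 : (K : ℝ) * √(H : ℝ) ≤ H := le_trans (by gcongr) h1
          have h8 : 1 ≤ √(H : ℝ) := Real.one_le_sqrt.2 hH1
          have h9 : (K : ℝ) ≤ H := by nlinarith
          exact_mod_cast h9
        have h6 := hK a H y c hy h1 r3 h2 h3 h4 h5
        rw [Pool.Agent.V8H64.GL.cnt_eq, Pool.Agent.V8H64.GL.cnt_eq] at h6
        have e1 : (∏ i, Φ (u i)) = ∏ i, Pool.Agent.N430.CLT.Phi (u i) :=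
          Finset.prod_congr rfl fun i _ => Φ_eq (u i)
        rw [e1, ncard_D', ncard_D a H _ (fun n => ∀ i, ∑ p ∈ Pool.Agent.N430.CLT.PP y,
          c i p * Pool.Agent.V8H64.GL.sg p n ≤ u i * √(∑ p ∈ Pool.Agent.N430.CLT.PP y, c i p ^ 2))]
        · exact h6
        · intro n _
          have e2 : ∀ p, sgn (-(n : ℤ)) p = Pool.Agent.V8H64.GL.sg p n := fun p => rfl
          simp only [e2]
  · intro u
    rw [Metric.tendsto_atTop]
    intro ε hε
    obtain ⟨K, hK⟩ := part2 (ε / 2) (by positivity)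
    refine ⟨max (K ^ 2) (max (64 ^ 2) 256), fun X hX => ?_⟩
    have hX1 : K ^ 2 ≤ X := (le_max_left _ _).trans hX
    have hX2 : 64 ^ 2 ≤ X := ((le_max_left _ _).trans (le_max_right _ _)).trans hX
    have hX3 : 256 ≤ X := ((le_max_right _ _).trans (le_max_right _ _)).trans hX
    have hroot : ∀ k : ℕ, k ^ 2 ≤ X → (k : ℝ) * √((0 : ℕ) + X) ≤ X := by
      intro k hk
      rw [Nat.cast_zero, zero_add]
      have h1 : (k : ℝ) ≤ √(X : ℝ) := Real.le_sqrt_of_sq_le (by exact_mod_cast hk)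
      calc (k : ℝ) * √(X : ℝ) ≤ √X * √X := by gcongr
        _ = X := Real.mul_self_sqrt (Nat.cast_nonneg _)
    have h1 := hK 0 X (hroot K hX1) u
    rw [zero_add] at h1
    have h2 : (X : ℝ) / 16 ≤ (D 0 X).ncard := by
      have h3 := Pool.Agent.V8H64.GL.card_fd 0 X (hroot 64 hX2) hX3
      rw [Pool.Agent.V8H64.GL.cnt_eq, ← ncard_D', zero_add] at h3
      exact h3
    have h3 : (0 : ℝ) < (D 0 X).ncard := by
      have : (256 : ℝ) ≤ X := by exact_mod_cast hX3
      linarith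
    rw [Real.dist_eq, div_sub' h3.ne', abs_div, abs_of_pos h3, div_lt_iff₀ h3,
      mul_comm ((D 0 X).ncard : ℝ)]
    refine lt_of_le_of_lt h1 ?_
    have := mul_pos hε h3
    linarith
  · intro ε hε
    obtain ⟨K, -, hK⟩ := Pool.Agent.V8H64.GL.thr_all ε hε
    refine ⟨K, fun a H ha h u => ?_⟩
    have h1 := hK a H ha h u
    rw [← Φ_eq] at h1
    have e : ({n | a < n ∧ n ≤ a + H ∧ 2 * (N' n : ℝ) - Y' n ≤ u * √(Y' n)}.ncard : ℝ) =
        Pool.Agent.V8H64.GL.cnt (fun n => ∑ p ∈ Pool.Agent.V8H64.GL.PT n,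
          Pool.Agent.V8H64.GL.sq1 p n ≤ u * √(#(Pool.Agent.V8H64.GL.PT n))) a H := by
      rw [← Pool.Agent.V8H64.GL.cnt_eq]
      rw [← Set.ncard_coe_finset]
      congr 2
      ext n
      rw [Finset.mem_coe, Finset.mem_filter, Finset.mem_Ioc, ← N'_eq, ← Y'_eq]
      constructor
      · rintro ⟨h1, h2, h3⟩
        exact ⟨⟨h1, h2⟩, h3⟩
      · rintro ⟨⟨h1, h2⟩, h3⟩
        exact ⟨h1, h2, h3⟩
    rw [e]
    exact h1

end Pool.Agent.Results.MP_aaa0df_nt.GaussianLaw
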