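import Pool.Agent.V8H62.PF.B4

set_option autoImplicit false

/-!
# Small split primes in the quadratic fields `ℚ(√(F(a, b)))` for arbitrary sets of pairs `(a, b)` and all polynomials `F`

(4) Let `F(x, y)` be an integer polynomial, squarefree as a polynomial in `y` over `ℚ(x)`, and not of the form
`u(x) v(y)`. Let `A`, `B` be ARBITRARY finite sets of integers of absolute value at most `H` with at least
`(log H) ^ (8 k)` elements. For all but at most `C |A| |B| / (log log H) ^ k` of the pairs `(a, b)` half of the primes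
below the threshold `(log |d|) ^ 2 (log log |d|) ^ 2` of the question split in the field `ℚ(√(F(a, b)))` of discriminant
`d`, or `F(a, b) = 0`, or `|d| < H ^ c`.

(3) More generally, let `f i`, `i < n`, be an ARBITRARY family of integer polynomials of degree between `1` and `m`,
with coefficients of absolute value at most `H`, squarefree over `ℚ`, each of which is proportional to at most `R` of them,
and let `B` be as before, `n, |B| ≥ (log H) ^ (7 k)`. Then the same holds for the values `f i (b)`; the constants do not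
depend on the polynomials.

(2) The same for all `y` with `L ≤ y ≤ T` in place of the threshold, up to `C (log H / √L) ^ k n |B|` pairs, if
`T ^ (2 k) ≤ n, |B|`.

(1) Sums of Jacobi symbols: for every finite set `P` of primes between `z` and `y`, `2 ≤ z ≤ H`, the number of the
pairs with `|∑ p ∈ P, (f i (b) | p)| ≥ η |P|` is at most `C (√y log H / (|P| log z)) ^ k n |B|`, if `y ^ k ≤ n` and
`|P| ^ (2 k) ≤ |B|`.

Weil's bound for character sums (from the starting library) is used for the correlations of the functions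
`b ↦ (f i (b) | p)` modulo `p`.
-/

namespace Pool.Agent.Results.MP_aaa0df_nt.PolynomialPairs

open Polynomial
open scoped Nat.Prime

/-- the discriminants of the quadratic fields, and `1` (for the negative ones see the frozen statement) -/
def Fund (d : ℤ) : Prop := (d % 4 = 1 ∧ Squarefree d) ∨
  (∃ m : ℤ, d = 4 * m ∧ (m % 4 = 2 ∨ m % 4 = 3) ∧ Squarefree m)

/-- `p` splits in the field of discriminant `d` (as in the frozen statement) -/
def Splits (d : ℤ) (p : ℕ) : Prop := ¬ (p : ℤ) ∣ d ∧ ∃ x : ℤ, (4 * (p : ℤ)) ∣ x ^ 2 - d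

/-- the number of the primes `p ≤ y` which split -/
noncomputable def S (d : ℤ) (y : ℕ) : ℕ := Set.ncard {p : ℕ | p.Prime ∧ p ≤ y ∧ Splits d p}

/-- Half of the primes `p ≤ y` split in the quadratic field `ℚ(√x)`, up to the relative error `η`, for all `y` with
`L ≤ y ≤ T` (`d` is the discriminant of `ℚ(√x)` if and only if it satisfies `Fund` and `x d` is a square). -/
def Half (η L T : ℝ) (x : ℤ) : Prop := ∀ d : ℤ, Fund d → IsSquare (x * d) → ∀ y : ℕ, L ≤ y → (y : ℝ) ≤ T →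
  |(S d y : ℝ) - (π y : ℝ) / 2| ≤ η * (π y : ℝ)

/-- the threshold `(log |d|) ^ 2 (log log |d|) ^ 2` of the question -/
noncomputable def threshold (d : ℤ) : ℝ := Real.log |(d : ℝ)| ^ 2 * Real.log (Real.log |(d : ℝ)|) ^ 2

/-- the number `N(d)` of the question -/
noncomputable def N (d : ℤ) : ℕ := Set.ncard {p : ℕ | p.Prime ∧ (p : ℝ) < threshold d ∧ Splits d p}

/-- the number of all primes below the threshold -/
noncomputable def Y (d : ℤ) : ℕ := Set.ncard {p : ℕ | p.Prime ∧ (p : ℝ) < threshold d}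

/-- `C a * f = C b * g` for nonzero integers `a`, `b` -/
def Proportional (f g : ℤ[X]) : Prop := ∃ a b : ℤ, a ≠ 0 ∧ b ≠ 0 ∧ C a * f = C b * g

/-- `f i`, `i < n`, are integer polynomials of degree between `1` and `m`, with coefficients of absolute value at most
`H`, squarefree over `ℚ`, and each of them is proportional to at most `R` of them (including itself). -/
def Family (m H R n : ℕ) (f : ℕ → ℤ[X]) : Prop :=
  (∀ i < n, 1 ≤ (f i).natDegree ∧ (f i).natDegree ≤ m ∧ Squarefree ((f i).map (Int.castRingHom ℚ)) ∧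
    ∀ j, |(f i).coeff j| ≤ H) ∧
  ∀ i < n, Set.ncard {j : ℕ | j < n ∧ Proportional (f i) (f j)} ≤ R

open Pool.Agent.R345.SS in
lemma S_eq (d : ℤ) (y : ℕ) : S d y = (Spl d y).card := by
  rw [← Set.ncard_coe_finset]
  unfold S
  congr 1
  ext p
  rw [Finset.mem_coe, mem_Spl, Set.mem_ofPred_eq]
  unfold Splits
  tauto

lemma lt_iff {t : ℝ} {p : ℕ} (hp : p.Prime) : (p : ℝ) < t ↔ p ≤ ⌈t⌉₊ - 1 := by
  rw [← Nat.lt_ceil]
  have := hp.pos
  omega

open Pool.Agent.R345.SS in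
lemma N_eq (d : ℤ) : N d = (Spl d (⌈thr d⌉₊ - 1)).card := by
  rw [← Set.ncard_coe_finset]
  unfold N
  congr 1
  ext p
  rw [Finset.mem_coe, mem_Spl, Set.mem_ofPred_eq]
  unfold Splits
  constructor
  · rintro ⟨h1, h2, h3⟩
    exact ⟨⟨(lt_iff h1).1 h2, h1⟩, h3⟩
  · rintro ⟨⟨h1, h2⟩, h3⟩
    exact ⟨h2, (lt_iff h2).2 h1, h3⟩

open Pool.Agent.R345.SS in
lemma Y_eq (d : ℤ) : Y d = π (⌈thr d⌉₊ - 1) := by
  rw [← Nat.primesLE_card_eq_primeCounting, ← Set.ncard_coe_finset]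
  unfold Y
  congr 1
  ext p
  rw [Finset.mem_coe, Nat.mem_primesLE, Set.mem_ofPred_eq]
  constructor
  · rintro ⟨h1, h2⟩
    exact ⟨(lt_iff h1).1 h2, h1⟩
  · rintro ⟨h1, h2⟩
    exact ⟨h2, (lt_iff h2).2 h1⟩

/-- the exceptional entries below the threshold -/
def Bad (η c H : ℝ) (x : ℤ) : Prop := x ≠ 0 ∧
  ∃ d : ℤ, Fund d ∧ IsSquare (x * d) ∧ H ^ c ≤ |(d : ℝ)| ∧ ¬ |2 * (N d : ℝ) - Y d| ≤ η * Y d

lemma half_iff {η L T : ℝ} {x : ℤ} : ¬ Half η L T x ↔ ∃ d : ℤ, Fund d ∧ IsSquare (x * d) ∧ ∃ y : ℕ, L ≤ y ∧ (y : ℝ) ≤ T ∧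
    ¬ |((Pool.Agent.R345.SS.Spl d y).card : ℝ) - (π y : ℝ) / 2| ≤ η * (π y : ℝ) := by
  unfold Half
  push Not
  simp only [S_eq]

lemma proportional_of_prp {f g : ℤ[X]} (hf : f ≠ 0) (hg : g ≠ 0) (h : Pool.Agent.V8H62.PF.Prp f g) : Proportional f g := by
  have hs : f.coeff f.natDegree ≠ 0 := leadingCoeff_ne_zero.2 hf
  have e : C (g.coeff f.natDegree) * f = C (f.coeff f.natDegree) * g := by
    ext t
    rw [coeff_C_mul, coeff_C_mul]
    have := h f.natDegree t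
    linear_combination -this
  refine ⟨g.coeff f.natDegree, f.coeff f.natDegree, ?_, hs, e⟩
  intro h0
  rw [h0, C_0, zero_mul] at e
  exact mul_ne_zero (C_ne_zero.2 hs) hg e.symm

open Classical in
lemma fam_adm {m H R n : ℕ} {f : ℕ → ℤ[X]} (h : Family m H R n f) :
    (∀ i ∈ Finset.range n, Pool.Agent.V8H62.PF.Adm m H (f i)) ∧
    (∀ i ∈ Finset.range n, ((Finset.range n).filter (fun j => Pool.Agent.V8H62.PF.Prp (f i) (f j))).card ≤ R) := by
  refine ⟨fun i hi => ?_, fun i hi => ?_⟩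
  · rw [Finset.mem_range] at hi
    exact ⟨(h.1 i hi).1, (h.1 i hi).2.1, (h.1 i hi).2.2.1, (h.1 i hi).2.2.2⟩
  rw [Finset.mem_range] at hi
  have hne : ∀ i < n, f i ≠ 0 := by
    intro i hi h0
    have := (h.1 i hi).1
    rw [h0, natDegree_zero] at this
    omega
  refine le_trans ?_ (h.2 i hi)
  rw [← Set.ncard_coe_finset]
  refine Set.ncard_le_ncard ?_ ((Set.finite_lt_nat n).subset fun j hj => hj.1)
  intro j hj
  rw [Finset.mem_coe, Finset.mem_filter, Finset.mem_range] at hj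
  exact ⟨hj.1, proportional_of_prp (hne i hi) (hne j hj.1) hj.2⟩

lemma nondeg {F : ℤ[X][X]} (h : ∀ u v : ℚ[X], F.map (mapRingHom (Int.castRingHom ℚ)) ≠ C u * v.map C) :
    0 < F.natDegree ∧ ∃ j, ¬ Pool.Agent.V8H62.PF.Prp F.leadingCoeff (F.coeff j) := by
  have hF0 : F ≠ 0 := by
    rintro rfl
    apply h 0 0
    simp
  refine ⟨?_, ?_⟩
  · by_contra h0
    have h1 : F.natDegree = 0 := by omega
    rw [natDegree_eq_zero] at h1
    obtain ⟨c, rfl⟩ := h1
    apply h (c.map (Int.castRingHom ℚ)) 1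
    simp
  · by_contra hcon
    push Not at hcon
    set g := F.leadingCoeff with hg
    have hg0 : g ≠ 0 := leadingCoeff_ne_zero.2 hF0
    set s := g.natDegree with hs
    have hgs : g.coeff s ≠ 0 := leadingCoeff_ne_zero.2 hg0
    have hgs' : ((g.coeff s : ℤ) : ℚ) ≠ 0 := by exact_mod_cast hgs
    obtain ⟨v, hv⟩ : ∃ v : ℚ[X], ∀ j, v.coeff j = ((F.coeff j).coeff s : ℚ) / (g.coeff s : ℚ) := by
      refine ⟨∑ j ∈ Finset.range (F.natDegree + 1), monomial j (((F.coeff j).coeff s : ℚ) / (g.coeff s : ℚ)), fun j => ?_⟩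
      rw [finsetSum_coeff]
      simp only [coeff_monomial]
      rw [Finset.sum_ite_eq']
      split_ifs with hj
      · rfl
      · rw [Finset.mem_range] at hj
        rw [coeff_eq_zero_of_natDegree_lt (p := F) (by omega)]
        simp
    apply h (g.map (Int.castRingHom ℚ)) v
    ext j t
    rw [coeff_map, coe_mapRingHom, coeff_map, coeff_C_mul, coeff_map, coeff_mul_C, coeff_map, hv]
    have h1 := hcon j s t
    simp only [eq_intCast]
    have h2 : ((g.coeff s : ℤ) : ℚ) * ((F.coeff j).coeff t : ℚ) = (g.coeff t : ℚ) * ((F.coeff j).coeff s : ℚ) := by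
      exact_mod_cast h1
    field_simp
    linear_combination h2

theorem result :
    (∀ (k m R : ℕ) (η : ℝ), 1 ≤ k → 1 ≤ m → 0 < η → η ≤ 1 → ∃ C : ℝ, 0 < C ∧
      ∀ (H z n : ℕ) (y : ℝ) (P : Finset ℕ) (f : ℕ → ℤ[X]) (B : Finset ℤ), 2 ≤ z → z ≤ H → P.Nonempty →
        (∀ p ∈ P, p.Prime ∧ z < p ∧ (p : ℝ) ≤ y) → Family m H R n f → (∀ b ∈ B, |b| ≤ H) →
        y ^ k ≤ n → (P.card : ℝ) ^ (2 * k) ≤ B.card →
        (Set.ncard {x : ℕ × ℤ | x.1 < n ∧ x.2 ∈ B ∧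
            η * P.card ≤ |∑ p ∈ P, (jacobiSym ((f x.1).eval x.2) p : ℝ)|} : ℝ) ≤
          C * (Real.sqrt y * Real.log H / (P.card * Real.log z)) ^ k * (n * B.card)) ∧
    (∀ (k m R : ℕ) (η : ℝ), 1 ≤ k → 1 ≤ m → 0 < η → η ≤ 1 → ∃ C : ℝ, 0 < C ∧
      ∀ (H n : ℕ) (f : ℕ → ℤ[X]) (B : Finset ℤ) (L T : ℝ), 2 ≤ H → Family m H R n f → (∀ b ∈ B, |b| ≤ H) → 0 < L →
        T ^ (2 * k) ≤ n → T ^ (2 * k) ≤ B.card →
        (Set.ncard {x : ℕ × ℤ | x.1 < n ∧ x.2 ∈ B ∧ (f x.1).eval x.2 ≠ 0 ∧ ¬ Half η L T ((f x.1).eval x.2)} : ℝ) ≤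
          C * (Real.log H / Real.sqrt L) ^ k * (n * B.card)) ∧
    (∀ (k m R : ℕ) (η c : ℝ), 1 ≤ k → 1 ≤ m → 0 < η → η ≤ 1 → 0 < c → ∃ C : ℝ, 0 < C ∧ ∃ H₀ : ℕ,
      ∀ (H n : ℕ) (f : ℕ → ℤ[X]) (B : Finset ℤ), H₀ ≤ H → Family m H R n f → (∀ b ∈ B, |b| ≤ H) →
        Real.log H ^ (7 * k) ≤ n → Real.log H ^ (7 * k) ≤ B.card →
        (Set.ncard {x : ℕ × ℤ | x.1 < n ∧ x.2 ∈ B ∧ Bad η c H ((f x.1).eval x.2)} : ℝ) ≤
          C * (1 / Real.log (Real.log H)) ^ k * (n * B.card)) ∧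
    (∀ (F : ℤ[X][X]) (k : ℕ) (η c : ℝ), Squarefree (F.map (algebraMap ℤ[X] (FractionRing ℤ[X]))) →
      (∀ u v : ℚ[X], F.map (mapRingHom (Int.castRingHom ℚ)) ≠ C u * v.map C) →
      1 ≤ k → 0 < η → η ≤ 1 → 0 < c → ∃ C : ℝ, 0 < C ∧ ∃ H₀ : ℕ,
      ∀ (H : ℕ) (A B : Finset ℤ), H₀ ≤ H → (∀ a ∈ A, |a| ≤ H) → (∀ b ∈ B, |b| ≤ H) →
        Real.log H ^ (8 * k) ≤ A.card → Real.log H ^ (8 * k) ≤ B.card →
        (Set.ncard {x : ℤ × ℤ | x.1 ∈ A ∧ x.2 ∈ B ∧ Bad η c H (F.evalEval x.1 x.2)} : ℝ) ≤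
          C * (1 / Real.log (Real.log H)) ^ k * (A.card * B.card)) := by
  classical
  have hfin : ∀ (n : ℕ) (B : Finset ℤ) (Q : ℕ × ℤ → Prop), {x : ℕ × ℤ | x.1 < n ∧ x.2 ∈ B ∧ Q x}.Finite := by
    intro n B Q
    exact (Finset.finite_toSet (Finset.range n ×ˢ B)).subset fun z hz =>
      Finset.mem_coe.2 (Finset.mem_product.2 ⟨Finset.mem_range.2 hz.1, hz.2.1⟩)
  refine ⟨?_, ?_, ?_, ?_⟩
  · intro k m R η hk hm hη hη1
    obtain ⟨C, hC, h⟩ := Pool.Agent.V8H62.PF.sum_gen (α := ℕ) k hk η hη hη1 m R hm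
    refine ⟨C, hC, ?_⟩
    intro H z n y P f B hz hzH hne hP hf hB hn hPB
    rw [Set.ncard_eq_toFinset_card _ (hfin n B _)]
    refine (h H z y P (Finset.range n) f B hz hzH hne hP (fam_adm hf).1 (fam_adm hf).2 hB
      (by rw [Finset.card_range]; exact hn) hPB _ ?_).trans (le_of_eq (by rw [Finset.card_range]))
    intro x hx
    rw [Set.Finite.mem_toFinset] at hx
    exact ⟨Finset.mem_product.2 ⟨Finset.mem_range.2 hx.1, hx.2.1⟩, hx.2.2⟩
  · intro k m R η hk hm hη hη1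
    obtain ⟨C, hC, h⟩ := Pool.Agent.V8H62.PF.half_gen (α := ℕ) k hk η hη hη1 m R hm
    refine ⟨C, hC, ?_⟩
    intro H n f B L T hH hf hB hL hn hTB
    rw [Set.ncard_eq_toFinset_card _ (hfin n B _)]
    refine (h H (Finset.range n) f B L hH (fam_adm hf).1 (fam_adm hf).2 hB hL _ ?_).trans
      (le_of_eq (by rw [Finset.card_range]))
    intro x hx
    rw [Set.Finite.mem_toFinset] at hx
    obtain ⟨h1, h2, h3, h4⟩ := hx
    rw [half_iff] at h4
    obtain ⟨d, hd, hsq, y, hLy, hyT, hbad⟩ := h4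
    have hpow : (y : ℝ) ^ (2 * k) ≤ T ^ (2 * k) := pow_le_pow_left₀ (Nat.cast_nonneg _) hyT _
    exact ⟨Finset.mem_product.2 ⟨Finset.mem_range.2 h1, h2⟩, h3, d, hd, hsq, y, hLy,
      by rw [Finset.card_range]; exact hpow.trans hn, hpow.trans hTB, hbad⟩
  · intro k m R η c hk hm hη hη1 hc
    obtain ⟨C, hC, H₀, -, h⟩ := Pool.Agent.V8H62.PF.thr_gen (α := ℕ) k hk η c hη hη1 hc m R hm
    refine ⟨C, hC, H₀, ?_⟩
    intro H n f B hH hf hB hn hcB
    rw [Set.ncard_eq_toFinset_card _ (hfin n B _)]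
    refine (h H (Finset.range n) f B hH (fam_adm hf).1 (fam_adm hf).2 hB
      (by rw [Finset.card_range]; exact hn) hcB _ ?_).trans (le_of_eq (by rw [Finset.card_range]))
    intro x hx
    rw [Set.Finite.mem_toFinset] at hx
    obtain ⟨h1, h2, h3, d, hd, hsq, hdc, hbad⟩ := hx
    refine ⟨Finset.mem_product.2 ⟨Finset.mem_range.2 h1, h2⟩, h3, d, hd, hsq, hdc, ?_⟩
    rw [N_eq, Y_eq] at hbad
    exact hbad
  · intro F k η c hsq hnd hk hη hη1 hc
    obtain ⟨hn, hj⟩ := nondeg hnd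
    obtain ⟨C, hC, H₀, h⟩ := Pool.Agent.V8H62.PF.biv k hk η c hη hη1 hc F hsq hn hj
    refine ⟨C, hC, H₀, ?_⟩
    intro H A B hH hA hB hcA hcB
    have hfin' : {x : ℤ × ℤ | x.1 ∈ A ∧ x.2 ∈ B ∧ Bad η c H (F.evalEval x.1 x.2)}.Finite :=
      (Finset.finite_toSet (A ×ˢ B)).subset fun z hz => Finset.mem_coe.2 (Finset.mem_product.2 ⟨hz.1, hz.2.1⟩)
    rw [Set.ncard_eq_toFinset_card _ hfin']
    refine h H A B hH hA hB hcA hcB _ ?_
    intro x hx
    rw [Set.Finite.mem_toFinset] at hx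
    obtain ⟨h1, h2, h3, d, hd, hsq, hdc, hbad⟩ := hx
    refine ⟨Finset.mem_product.2 ⟨h1, h2⟩, h3, d, hd, hsq, hdc, ?_⟩
    rw [N_eq, Y_eq] at hbad
    exact hbad

end Pool.Agent.Results.MP_aaa0df_nt.PolynomialPairs
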