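import Pool.Agent.V8H62.DT.R3

set_option autoImplicit false

/-!
# Small split primes in the quadratic fields given by the entries of integer matrices of rank two

Let `M` be an ARBITRARY integer matrix with `m` rows and `n` columns, whose rank is two, none of whose minors of order
two is zero, and whose entries are at most `H` in absolute value.

(4) For all but at most `C ((log H) ^ 2 / L) ^ k m n` of the entries `x` half of the primes `p ≤ y` split in the field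
`ℚ(√x)`, up to the relative error `η`, for all `y` with `L ≤ y ≤ T`. Here `T ^ (2 k) ≤ m, n`.

(5) Let `m, n ≥ (7 log H) ^ (6 k)`. For all but at most `C m n / (log log H) ^ (2 k)` of the entries `x` half of the primes
below the threshold `(log |d|) ^ 2 (log log |d|) ^ 2` of the question split in the field `ℚ(√x)` of discriminant `d`,
or `|d| < H ^ c`.

(6) In particular this holds for the values `α a b + β a + γ b + δ`, `α δ ≠ β γ`, of a bilinear polynomial at the pairs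
`(a, b)` of elements of two arbitrary finite sets of integers.

(1), (2), (3) are the same for the integers `D det (u, v)`, where `u` and `v` are in arbitrary finite sets `A`, `A'`
of integer vectors any two of which are linearly independent; here the bounds depend on the determinants of the pairs of
vectors of `A` and of the pairs of vectors of `A'` in place of `H`.
-/

namespace Pool.Agent.Results.MP_aaa0df_nt.RankTwoMatrices

open scoped Nat.Prime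

/-- the discriminants of the quadratic fields, and `1` (for the negative ones see the frozen statement) -/
def Fund (d : ℤ) : Prop := (d % 4 = 1 ∧ Squarefree d) ∨
  (∃ m : ℤ, d = 4 * m ∧ (m % 4 = 2 ∨ m % 4 = 3) ∧ Squarefree m)

/-- `p` splits in the field of discriminant `d` (as in the frozen statement) -/
def Splits (d : ℤ) (p : ℕ) : Prop := ¬ (p : ℤ) ∣ d ∧ ∃ x : ℤ, (4 * (p : ℤ)) ∣ x ^ 2 - d

/-- the number of the primes `p ≤ y` which split -/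
noncomputable def S (d : ℤ) (y : ℕ) : ℕ := Set.ncard {p : ℕ | p.Prime ∧ p ≤ y ∧ Splits d p}

/-- Half of the primes `p ≤ y` split in the quadratic field `ℚ(√x)`, up to the relative error `η`, for all `y` with
`L ≤ y ≤ T` (`d` is the discriminant of `ℚ(√x)` if and only if it satisfies `Fund` and `x d` is a square). -/
def Half (η L T : ℝ) (x : ℤ) : Prop := ∀ d : ℤ, Fund d → IsSquare (x * d) → ∀ y : ℕ, L ≤ y → (y : ℝ) ≤ T →
  |(S d y : ℝ) - (π y : ℝ) / 2| ≤ η * (π y : ℝ)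

/-- the threshold `(log |d|) ^ 2 (log log |d|) ^ 2` of the question -/
noncomputable def threshold (d : ℤ) : ℝ := Real.log |(d : ℝ)| ^ 2 * Real.log (Real.log |(d : ℝ)|) ^ 2

/-- the number `N(d)` of the question -/
noncomputable def N (d : ℤ) : ℕ := Set.ncard {p : ℕ | p.Prime ∧ (p : ℝ) < threshold d ∧ Splits d p}

/-- the number of all primes below the threshold -/
noncomputable def Y (d : ℤ) : ℕ := Set.ncard {p : ℕ | p.Prime ∧ (p : ℝ) < threshold d}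

/-- the determinant of two integer vectors -/
def det (u v : ℤ × ℤ) : ℤ := u.1 * v.2 - u.2 * v.1

/-- any two different vectors of `A` are linearly independent, and their determinant is at most `X` -/
def Independent (X : ℕ) (A : Finset (ℤ × ℤ)) : Prop :=
  ∀ u ∈ A, ∀ u' ∈ A, u ≠ u' → det u u' ≠ 0 ∧ |det u u'| ≤ X

/-- The rank of the integer matrix `M` is at most two (it is a sum of two rational matrices of rank at most one), and none of
its minors of order two is zero. -/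
def RankTwo {m n : ℕ} (M : Fin m → Fin n → ℤ) : Prop :=
  (∃ (a c : Fin m → ℚ) (b e : Fin n → ℚ), ∀ i j, (M i j : ℚ) = a i * b j + c i * e j) ∧
    ∀ i i' j j', i ≠ i' → j ≠ j' → M i j * M i' j' - M i j' * M i' j ≠ 0

open Pool.Agent.R345.SS in
lemma S_eq (d : ℤ) (y : ℕ) : S d y = (Spl d y).card := by
  rw [← Set.ncard_coe_finset]
  unfold S
  congr 1
  ext p
  rw [Finset.mem_coe, mem_Spl, Set.mem_ofPred_eq]
  unfold Splits
  tauto

lemma lt_iff {t : ℝ} {p : ℕ} (hp : p.Prime) : (p : ℝ) < t ↔ p ≤ ⌈t⌉₊ - 1 := by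
  rw [← Nat.lt_ceil]
  have := hp.pos
  omega

open Pool.Agent.R345.SS in
lemma N_eq (d : ℤ) : N d = (Spl d (⌈thr d⌉₊ - 1)).card := by
  rw [← Set.ncard_coe_finset]
  unfold N
  congr 1
  ext p
  rw [Finset.mem_coe, mem_Spl, Set.mem_ofPred_eq]
  unfold Splits
  constructor
  · rintro ⟨h1, h2, h3⟩
    exact ⟨⟨(lt_iff h1).1 h2, h1⟩, h3⟩
  · rintro ⟨⟨h1, h2⟩, h3⟩
    exact ⟨h2, (lt_iff h2).2 h1, h3⟩

open Pool.Agent.R345.SS in
lemma Y_eq (d : ℤ) : Y d = π (⌈thr d⌉₊ - 1) := by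
  rw [← Nat.primesLE_card_eq_primeCounting, ← Set.ncard_coe_finset]
  unfold Y
  congr 1
  ext p
  rw [Finset.mem_coe, Nat.mem_primesLE, Set.mem_ofPred_eq]
  constructor
  · rintro ⟨h1, h2⟩
    exact ⟨(lt_iff h1).1 h2, h1⟩
  · rintro ⟨h1, h2⟩
    exact ⟨h2, (lt_iff h2).2 h1⟩

/-- the exceptional entries below the threshold -/
def Bad (η c H : ℝ) (x : ℤ) : Prop := x ≠ 0 ∧
  ∃ d : ℤ, Fund d ∧ IsSquare (x * d) ∧ H ^ c ≤ |(d : ℝ)| ∧ ¬ |2 * (N d : ℝ) - Y d| ≤ η * Y d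

lemma half_iff {η L T : ℝ} {x : ℤ} : ¬ Half η L T x ↔ ∃ d : ℤ, Fund d ∧ IsSquare (x * d) ∧ ∃ y : ℕ, L ≤ y ∧ (y : ℝ) ≤ T ∧
    ¬ |((Pool.Agent.R345.SS.Spl d y).card : ℝ) - (π y : ℝ) / 2| ≤ η * (π y : ℝ) := by
  unfold Half
  push Not
  simp only [S_eq]

lemma four (k : ℕ) (η : ℝ) (hk : 1 ≤ k) (hη : 0 < η) (hη1 : η ≤ 1) : ∃ C : ℝ, 0 < C ∧
      ∀ (H m n : ℕ) (M : Fin m → Fin n → ℤ) (L T : ℝ), 2 ≤ H → (∀ i j, |M i j| ≤ H) → RankTwo M → 0 < L →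
        T ^ (2 * k) ≤ m → T ^ (2 * k) ≤ n →
        (Set.ncard {z : Fin m × Fin n | M z.1 z.2 ≠ 0 ∧ ¬ Half η L T (M z.1 z.2)} : ℝ) ≤
          C * (Real.log H ^ 2 / L) ^ k * (m * n) := by
  classical
  obtain ⟨C, hC, h⟩ := Pool.Agent.V8H62.DT.rank_half k hk η hη hη1
  refine ⟨C, hC, ?_⟩
  intro H m n M L T hH hMH hR hL hm hn
  rw [Set.ncard_eq_toFinset_card _ (Set.toFinite _)]
  refine h H m n M L hH hMH hR hL _ ?_
  intro z hz
  rw [Set.Finite.mem_toFinset] at hz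
  obtain ⟨h3, h4⟩ := hz
  rw [half_iff] at h4
  obtain ⟨d, hd, hsq, y, hLy, hyT, hbad⟩ := h4
  have hpow : (y : ℝ) ^ (2 * k) ≤ T ^ (2 * k) := pow_le_pow_left₀ (Nat.cast_nonneg _) hyT _
  exact ⟨h3, d, hd, hsq, y, hLy, hpow.trans hm, hpow.trans hn, hbad⟩

lemma five (k : ℕ) (η c : ℝ) (hk : 1 ≤ k) (hη : 0 < η) (hη1 : η ≤ 1) (hc : 0 < c) : ∃ C : ℝ, 0 < C ∧ ∃ H₀ : ℕ,
      ∀ (H m n : ℕ) (M : Fin m → Fin n → ℤ), H₀ ≤ H → (∀ i j, |M i j| ≤ H) → RankTwo M →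
        (7 * Real.log H) ^ (6 * k) ≤ m → (7 * Real.log H) ^ (6 * k) ≤ n →
        (Set.ncard {z : Fin m × Fin n | Bad η c H (M z.1 z.2)} : ℝ) ≤
          C * (1 / Real.log (Real.log H)) ^ (2 * k) * (m * n) := by
  classical
  obtain ⟨C, hC, H₀, -, h⟩ := Pool.Agent.V8H62.DT.rank_thr k hk η (min c 1) hη hη1 (lt_min hc one_pos) (min_le_right _ _)
  refine ⟨C, hC, max H₀ 1, ?_⟩
  intro H m n M hH hMH hR hm hn
  have hH1 : (1 : ℝ) ≤ H := by exact_mod_cast (le_max_right _ _).trans hH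
  rw [Set.ncard_eq_toFinset_card _ (Set.toFinite _)]
  refine h H m n M ((le_max_left _ _).trans hH) hMH hR hm hn _ ?_
  intro z hz
  rw [Set.Finite.mem_toFinset] at hz
  obtain ⟨h3, d, hd, hsq, hdc, hbad⟩ := hz
  refine ⟨h3, d, hd, hsq, ?_, ?_⟩
  · exact (Real.rpow_le_rpow_of_exponent_le hH1 (min_le_left _ _)).trans hdc
  · rw [N_eq, Y_eq] at hbad
    exact hbad

/-- counting the pairs in a product of two sets of integers by their indices -/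
lemma transfer (A B : Finset ℤ) (Q : ℤ → ℤ → Prop) :
    Set.ncard {z : ℤ × ℤ | z.1 ∈ A ∧ z.2 ∈ B ∧ Q z.1 z.2} =
      Set.ncard {z : Fin A.card × Fin B.card | Q (A.equivFin.symm z.1) (B.equivFin.symm z.2)} := by
  classical
  symm
  have hinj : Function.Injective (fun z : Fin A.card × Fin B.card =>
      (((A.equivFin.symm z.1 : A) : ℤ), ((B.equivFin.symm z.2 : B) : ℤ))) := by
    intro z z' hz
    have h1 := congrArg Prod.fst hz
    have h2 := congrArg Prod.snd hz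
    exact Prod.ext (A.equivFin.symm.injective (Subtype.ext h1)) (B.equivFin.symm.injective (Subtype.ext h2))
  rw [← Set.ncard_image_of_injective _ hinj]
  congr 1
  ext z
  simp only [Set.mem_image, Set.mem_ofPred_eq]
  constructor
  · rintro ⟨x, hx, rfl⟩
    exact ⟨(A.equivFin.symm x.1).2, (B.equivFin.symm x.2).2, hx⟩
  · rintro ⟨h1, h2, h3⟩
    refine ⟨(A.equivFin ⟨z.1, h1⟩, B.equivFin ⟨z.2, h2⟩), ?_, ?_⟩
    · simpa using h3
    · simp

lemma bilinear_rank (A B : Finset ℤ) (α β γ δ : ℤ) (h : α * δ ≠ β * γ) :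
    RankTwo (fun (i : Fin A.card) (j : Fin B.card) => α * (A.equivFin.symm i : ℤ) * (B.equivFin.symm j : ℤ) +
      β * (A.equivFin.symm i : ℤ) + γ * (B.equivFin.symm j : ℤ) + δ) := by
  constructor
  · refine ⟨fun i => ((A.equivFin.symm i : ℤ) : ℚ), fun _ => 1, fun j => α * ((B.equivFin.symm j : ℤ) : ℚ) + β,
      fun j => γ * ((B.equivFin.symm j : ℤ) : ℚ) + δ, fun i j => ?_⟩
    push_cast
    ring
  · intro i i' j j' hi hj
    have e : (α * (A.equivFin.symm i : ℤ) * (B.equivFin.symm j : ℤ) +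
      β * (A.equivFin.symm i : ℤ) + γ * (B.equivFin.symm j : ℤ) + δ) * (α * (A.equivFin.symm i' : ℤ) * (B.equivFin.symm j' : ℤ) +
      β * (A.equivFin.symm i' : ℤ) + γ * (B.equivFin.symm j' : ℤ) + δ) - (α * (A.equivFin.symm i : ℤ) * (B.equivFin.symm j' : ℤ) +
      β * (A.equivFin.symm i : ℤ) + γ * (B.equivFin.symm j' : ℤ) + δ) * (α * (A.equivFin.symm i' : ℤ) * (B.equivFin.symm j : ℤ) +
      β * (A.equivFin.symm i' : ℤ) + γ * (B.equivFin.symm j : ℤ) + δ) = (α * δ - β * γ) *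
        ((A.equivFin.symm i : ℤ) - (A.equivFin.symm i' : ℤ)) * ((B.equivFin.symm j : ℤ) - (B.equivFin.symm j' : ℤ)) := by ring
    show _ - _ ≠ (0 : ℤ)
    rw [e]
    refine mul_ne_zero (mul_ne_zero (sub_ne_zero.2 h) (sub_ne_zero.2 fun h' => hi ?_)) (sub_ne_zero.2 fun h' => hj ?_)
    · exact A.equivFin.symm.injective (Subtype.ext h')
    · exact B.equivFin.symm.injective (Subtype.ext h')

theorem result :
    (∀ (k : ℕ) (η : ℝ), 1 ≤ k → 0 < η → η ≤ 1 → ∃ C : ℝ, 0 < C ∧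
      ∀ (P : Finset ℕ) (y W : ℝ) (A A' : Finset (ℤ × ℤ)) (D : ℤ), P.Nonempty →
        (∀ p ∈ P, p.Prime ∧ p ≠ 2 ∧ (p : ℝ) ≤ y) → 1 ≤ W →
        (∀ a ∈ A, ∀ a' ∈ A, a ≠ a' → (Set.ncard {p : ℕ | p ∈ P ∧ (p : ℤ) ∣ det a a'} : ℝ) ≤ W) →
        (∀ a ∈ A', ∀ a' ∈ A', a ≠ a' → (Set.ncard {p : ℕ | p ∈ P ∧ (p : ℤ) ∣ det a a'} : ℝ) ≤ W) →
        (P.card : ℝ) ^ (2 * k) ≤ A.card → (P.card : ℝ) ^ (2 * k) ≤ A'.card →
        (Set.ncard {z : (ℤ × ℤ) × (ℤ × ℤ) | z.1 ∈ A ∧ z.2 ∈ A' ∧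
            η * P.card ≤ |∑ p ∈ P, (jacobiSym (D * det z.1 z.2) p : ℝ)|} : ℝ) ≤
          C * (y * W ^ 2 / (P.card : ℝ) ^ 2) ^ k * (A.card * A'.card)) ∧
    (∀ (k : ℕ) (η δ : ℝ), 1 ≤ k → 0 < η → η ≤ 1 → 0 < δ → ∃ C : ℝ, 0 < C ∧
      ∀ (X H : ℕ) (D : ℤ) (A A' : Finset (ℤ × ℤ)) (L T : ℝ), 2 ≤ X → 2 ≤ H →
        Independent X A → Independent X A' →
        (∀ a ∈ A, ∀ a' ∈ A', |D * det a a'| ≤ H) → Real.log H ^ (1 + δ) ≤ L →
        T ^ (2 * k) ≤ A.card → T ^ (2 * k) ≤ A'.card →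
        (Set.ncard {z : (ℤ × ℤ) × (ℤ × ℤ) | z.1 ∈ A ∧ z.2 ∈ A' ∧ D * det z.1 z.2 ≠ 0 ∧
            ¬ Half η L T (D * det z.1 z.2)} : ℝ) ≤
          C * (Real.log X ^ 2 / L) ^ k * (A.card * A'.card)) ∧
    (∀ (k : ℕ) (η c : ℝ), 1 ≤ k → 0 < η → η ≤ 1 → 0 < c → ∃ C : ℝ, 0 < C ∧ ∃ H₀ : ℕ,
      ∀ (X H : ℕ) (D : ℤ) (A A' : Finset (ℤ × ℤ)), 2 ≤ X → H₀ ≤ H →
        Independent X A → Independent X A' →
        (∀ a ∈ A, ∀ a' ∈ A', |D * det a a'| ≤ H) →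
        Real.log H ^ (6 * k) ≤ A.card → Real.log H ^ (6 * k) ≤ A'.card →
        (Set.ncard {z : (ℤ × ℤ) × (ℤ × ℤ) | z.1 ∈ A ∧ z.2 ∈ A' ∧ Bad η c H (D * det z.1 z.2)} : ℝ) ≤
          C * (Real.log X / (Real.log H * Real.log (Real.log H))) ^ (2 * k) * (A.card * A'.card)) ∧
    (∀ (k : ℕ) (η : ℝ), 1 ≤ k → 0 < η → η ≤ 1 → ∃ C : ℝ, 0 < C ∧
      ∀ (H m n : ℕ) (M : Fin m → Fin n → ℤ) (L T : ℝ), 2 ≤ H → (∀ i j, |M i j| ≤ H) → RankTwo M → 0 < L →
        T ^ (2 * k) ≤ m → T ^ (2 * k) ≤ n →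
        (Set.ncard {z : Fin m × Fin n | M z.1 z.2 ≠ 0 ∧ ¬ Half η L T (M z.1 z.2)} : ℝ) ≤
          C * (Real.log H ^ 2 / L) ^ k * (m * n)) ∧
    (∀ (k : ℕ) (η c : ℝ), 1 ≤ k → 0 < η → η ≤ 1 → 0 < c → ∃ C : ℝ, 0 < C ∧ ∃ H₀ : ℕ,
      ∀ (H m n : ℕ) (M : Fin m → Fin n → ℤ), H₀ ≤ H → (∀ i j, |M i j| ≤ H) → RankTwo M →
        (7 * Real.log H) ^ (6 * k) ≤ m → (7 * Real.log H) ^ (6 * k) ≤ n →
        (Set.ncard {z : Fin m × Fin n | Bad η c H (M z.1 z.2)} : ℝ) ≤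
          C * (1 / Real.log (Real.log H)) ^ (2 * k) * (m * n)) ∧
    (∀ (k : ℕ) (η c : ℝ), 1 ≤ k → 0 < η → η ≤ 1 → 0 < c → ∃ C : ℝ, 0 < C ∧ ∃ H₀ : ℕ,
      ∀ (H : ℕ) (A B : Finset ℤ) (α β γ δ : ℤ), H₀ ≤ H → α * δ ≠ β * γ →
        (∀ a ∈ A, ∀ b ∈ B, |α * a * b + β * a + γ * b + δ| ≤ H) →
        (7 * Real.log H) ^ (6 * k) ≤ A.card → (7 * Real.log H) ^ (6 * k) ≤ B.card →
        (Set.ncard {z : ℤ × ℤ | z.1 ∈ A ∧ z.2 ∈ B ∧ Bad η c H (α * z.1 * z.2 + β * z.1 + γ * z.2 + δ)} : ℝ) ≤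
          C * (1 / Real.log (Real.log H)) ^ (2 * k) * (A.card * B.card)) := by
  classical
  have hfil : ∀ (P : Finset ℕ) (h : ℤ), Set.ncard {p : ℕ | p ∈ P ∧ (p : ℤ) ∣ h} = (P.filter (fun p : ℕ => (p : ℤ) ∣ h)).card := by
    intro P h
    rw [← Set.ncard_coe_finset]
    congr 1
    ext p
    simp
  refine ⟨?_, ?_, ?_, ?_, ?_, ?_⟩
  · intro k η hk hη hη1
    obtain ⟨C, hC, h⟩ := Pool.Agent.V8H62.DT.excep k hk η hη hη1
    refine ⟨C, hC, ?_⟩
    intro P y W A A' D hne hP hW hA hB hcA hcB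
    have h1 := h P y W A A' D hne hP hW (fun a ha a' ha' hn => by rw [← hfil]; exact hA a ha a' ha' hn)
      (fun a ha a' ha' hn => by rw [← hfil]; exact hB a ha a' ha' hn) hcA hcB
    rw [← Set.ncard_coe_finset ((A ×ˢ A').filter (fun z : (ℤ × ℤ) × (ℤ × ℤ) => η * P.card ≤
      |∑ p ∈ P, Pool.Agent.R345.SS.J (D * Pool.Agent.V8H62.DT.dt z.1 z.2) p|))] at h1
    refine le_trans (le_of_eq ?_) h1
    refine congrArg (fun s : Set ((ℤ × ℤ) × (ℤ × ℤ)) => (s.ncard : ℝ)) ?_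
    ext z
    rw [Finset.mem_coe, Finset.mem_filter, Finset.mem_product, Set.mem_ofPred_eq]
    unfold Pool.Agent.R345.SS.J Pool.Agent.V8H62.DT.dt det
    tauto
  · intro k η δ hk hη hη1 hδ
    obtain ⟨C, hC, h⟩ := Pool.Agent.V8H62.DT.split_pairs k hk η δ hη hη1 hδ
    refine ⟨C, hC, ?_⟩
    intro X H D A A' L T hX hH hA hA' hDH hL hcA hcA'
    have hfin : {z : (ℤ × ℤ) × (ℤ × ℤ) | z.1 ∈ A ∧ z.2 ∈ A' ∧ D * det z.1 z.2 ≠ 0 ∧ ¬ Half η L T (D * det z.1 z.2)}.Finite :=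
      (Finset.finite_toSet (A ×ˢ A')).subset fun z hz => Finset.mem_coe.2 (Finset.mem_product.2 ⟨hz.1, hz.2.1⟩)
    rw [Set.ncard_eq_toFinset_card _ hfin]
    refine h X H D A A' L hX hH hA hA' hDH hL _ ?_
    intro z hz
    rw [Set.Finite.mem_toFinset] at hz
    obtain ⟨h1, h2, h3, h4⟩ := hz
    rw [half_iff] at h4
    obtain ⟨d, hd, hsq, y, hLy, hyT, hbad⟩ := h4
    have hpow : (y : ℝ) ^ (2 * k) ≤ T ^ (2 * k) := pow_le_pow_left₀ (Nat.cast_nonneg _) hyT _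
    exact ⟨Finset.mem_product.2 ⟨h1, h2⟩, h3, d, hd, hsq, y, hLy, hpow.trans hcA, hpow.trans hcA', hbad⟩
  · intro k η c hk hη hη1 hc
    obtain ⟨C, hC, H₀, -, h⟩ := Pool.Agent.V8H62.DT.threshold_pairs k hk η (min c 1) hη hη1 (lt_min hc one_pos) (min_le_right _ _)
    refine ⟨C, hC, max H₀ 1, ?_⟩
    intro X H D A A' hX hH hA hA' hDH hcA hcA'
    have hH1 : (1 : ℝ) ≤ H := by exact_mod_cast (le_max_right _ _).trans hH
    have hfin : {z : (ℤ × ℤ) × (ℤ × ℤ) | z.1 ∈ A ∧ z.2 ∈ A' ∧ Bad η c H (D * det z.1 z.2)}.Finite :=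
      (Finset.finite_toSet (A ×ˢ A')).subset fun z hz => Finset.mem_coe.2 (Finset.mem_product.2 ⟨hz.1, hz.2.1⟩)
    rw [Set.ncard_eq_toFinset_card _ hfin]
    refine h X H D A A' hX ((le_max_left _ _).trans hH) hA hA' hDH hcA hcA' _ ?_
    intro z hz
    rw [Set.Finite.mem_toFinset] at hz
    obtain ⟨h1, h2, h3, d, hd, hsq, hdc, hbad⟩ := hz
    refine ⟨Finset.mem_product.2 ⟨h1, h2⟩, h3, d, hd, hsq, ?_, ?_⟩
    · exact (Real.rpow_le_rpow_of_exponent_le hH1 (min_le_left _ _)).trans hdc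
    · rw [N_eq, Y_eq] at hbad
      exact hbad
  · intro k η hk hη hη1
    exact four k η hk hη hη1
  · intro k η c hk hη hη1 hc
    exact five k η c hk hη hη1 hc
  · intro k η c hk hη hη1 hc
    obtain ⟨C, hC, H₀, h⟩ := five k η c hk hη hη1 hc
    refine ⟨C, hC, H₀, ?_⟩
    intro H A B α β γ δ hH hne hAB hcA hcB
    have h1 := h H A.card B.card (fun (i : Fin A.card) (j : Fin B.card) => α * (A.equivFin.symm i : ℤ) * (B.equivFin.symm j : ℤ) +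
      β * (A.equivFin.symm i : ℤ) + γ * (B.equivFin.symm j : ℤ) + δ) hH
      (fun i j => hAB _ (A.equivFin.symm i).2 _ (B.equivFin.symm j).2)
      (bilinear_rank A B α β γ δ hne) hcA hcB
    have h2 := transfer A B (fun a b => Bad η c H (α * a * b + β * a + γ * b + δ))
    refine le_trans (le_of_eq ?_) h1
    exact congrArg (fun x : ℕ => (x : ℝ)) h2

end Pool.Agent.Results.MP_aaa0df_nt.RankTwoMatrices
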